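import Pool.Agent.Helper72.OD.Iso
import Pool.Agent.Helper72.OC.Mat

/-!
# Orbit theorem: from the internal definitions to the statement
-/

set_option autoImplicit false

namespace Pool.Agent.Helper72.OD

open AlgebraicGeometry CategoryTheory TensorProduct

variable {Λ : Type} [CommRing Λ]

theorem map_id_int (G : OC.GSch Λ) {R : Type} [CommRing R] [Algebra Λ R] (g : G.Pt R) :
    G.map (AlgHom.id Λ R) g = g := by
  have h := G.map_comp (G.ev g) (AlgHom.id Λ R) G.gen
  rw [G.map_ev] at h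
  rw [← h]
  exact G.map_ev g

/-- the group functor -/
def ofInt (G : OC.GSch Λ) : CommAlgCat.{0} Λ ⥤ GrpCat.{0} where
  obj A := GrpCat.of (G.Pt A)
  map f := GrpCat.ofHom (G.map f.hom)
  map_id A := by
    ext g
    exact map_id_int G g
  map_comp f f' := by
    ext g
    exact G.map_comp f.hom f'.hom g

theorem good_ofInt {G : OC.GSch Λ} (h : G.Good) : Good (ofInt G) := by
  refine ⟨.of Λ G.O, G.gen, fun A g => ⟨CommAlgCat.ofHom (X := G.O) (Y := A) (G.ev g), ?_, ?_⟩,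
    h.smooth, fun A hA => h.domain A hA, fun A b => ?_⟩
  · exact G.map_ev g
  · intro f hf
    apply CommAlgCat.hom_ext
    show f.hom = G.ev g
    rw [← hf]
    exact (G.ev_map f.hom).symm
  · obtain ⟨s, hs⟩ := h.content A b
    exact ⟨s, fun B f => hs B f.hom⟩

theorem isSolv_ofInt {G : OC.GSch Λ} (s : OC.Solv G) : IsSolv (ofInt G) := by
  refine ⟨s.N, s.n, fun k A a => s.x k (R := A) a, fun A u => s.t (R := A) u, s.β,
    fun k A B f a => s.x_nat k f.hom a, fun A B f u v huv => ?_,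
    fun A u v => (s.t (R := A)).map_mul u v, fun k A => s.x_zero k A,
    fun k A a b => s.x_add k (R := A) a b, fun k A u a => s.conj k (R := A) u a,
    fun k l hl A a b => s.comm k l hl (R := A) a b, fun A => s.gen A⟩
  refine (s.t_nat (R := A) (R' := B) f.hom u).trans (congrArg (s.t (R := B)) ?_)
  funext i
  exact Units.ext (huv i)

theorem isFlag_ofInt {Q G : OC.GSch Λ} (f : OC.Flag Q G) : IsFlag (ofInt Q) (ofInt G) := by
  let _ := f.ringΓ
  let _ := f.algΓ
  refine ⟨⟨fun A => GrpCat.ofHom (f.inc (R := A)), fun A B φ => ?_⟩, f.m, f.c,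
    fun l A g => f.w l (R := A) g, fun A q => f.χ (R := A) q, f.e, fun j => .of Λ (f.Γ j), f.σ,
    fun l A B φ g => f.w_nat l φ.hom g, fun l A g q => f.w_mul l (R := A) g q, f.pos,
    fun l => ?_, f.w_σ, f.gen, fun j A g hg => ?_,
    fun j => ⟨f.dim j, f.cell j, f.cell_surj j, f.cell_zero j, f.cell_ker j⟩⟩
  · ext q
    exact (f.inc_nat φ.hom q).symm
  · obtain ⟨k, p, hp, h⟩ := f.cover l
    exact ⟨k, p, hp, fun A g => h (R := A) g⟩
  · obtain ⟨⟨φ, q⟩, h1, h2⟩ := f.chart j (R := A) g hg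
    refine ⟨(CommAlgCat.ofHom (X := f.Γ j) (Y := A) φ, q), h1, fun p hp => ?_⟩
    have h3 := h2 (p.1.hom, p.2) hp
    refine Prod.ext (CommAlgCat.hom_ext ?_) ?_
    · exact congrArg (fun a : (f.Γ j →ₐ[Λ] A) × Q.Pt A => a.1) h3
    · exact congrArg (fun a : (f.Γ j →ₐ[Λ] A) × Q.Pt A => a.2) h3

theorem isBC_ofInt {Λ' : Type} [CommRing Λ'] [Algebra Λ Λ'] {G : OC.GSch Λ} {G' : OC.GSch Λ'}
    (h : OC.IsBC G G') : Nonempty (ofInt G' ≅ bc Λ' (ofInt G)) := by
  obtain ⟨e, he⟩ := h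
  have ht : ∀ A : CommAlgCat.{0} Λ', @IsScalarTower Λ Λ' A _ _ (resObj Λ A).algebra.toSMul :=
    fun A =>
      let _ : Algebra Λ A := (resObj Λ A).algebra
      IsScalarTower.of_algebraMap_eq fun _ => rfl
  refine ⟨NatIso.ofComponents (fun A => MulEquiv.toGrpIso (X := (ofInt G').obj A)
    (Y := (bc Λ' (ofInt G)).obj A) (@e A A.commRing (resObj Λ A).algebra A.algebra (ht A))) fun {A B} f => ?_⟩
  ext g
  exact @he A B A.commRing (resObj Λ A).algebra A.algebra (ht A) B.commRing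
    (resObj Λ B).algebra B.algebra (ht B) f.hom g

theorem flagged_ofInt {Λ : Type} [CommRing Λ] {G : OC.GSch Λ} (h : OC.Flagged G) :
    Flagged Λ (ofInt G) := by
  induction h with
  | solv G hG hs => exact .solv _ (good_ofInt hG) (isSolv_ofInt hs.some)
  | flag Q G hG hf _ ih => exact .flag _ _ (good_ofInt hG) (isFlag_ofInt hf.some) ih
  | @ext Λ _ G L _ hdom _ _ _ G' hG hft hinj halg hbc _ ih =>
    refine .ext (ofInt G) (fun p => .of Λ (L p)) (good_ofInt hG) (fun p => ⟨hdom p, hft p,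
      fun a => ?_, fun b => ?_⟩) fun p => flagged_iso (ih p) (isBC_ofInt (hbc p)).some
    · show algebraMap Λ (L p) a = 0 ↔ _
      rw [IsScalarTower.algebraMap_apply Λ (Λ ⧸ p.asIdeal) (L p),
        map_eq_zero_iff _ (hinj p)]
      exact Ideal.Quotient.eq_zero_iff_mem
    · obtain ⟨g, hg, hb⟩ := (halg p).isAlgebraic b
      obtain ⟨f, rfl⟩ := Polynomial.map_surjective (algebraMap Λ (Λ ⧸ p.asIdeal))
        Ideal.Quotient.mk_surjective g
      refine ⟨f, fun h0 => hg ?_, ?_⟩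
      · apply Polynomial.map_injective _ (hinj p)
        rw [Polynomial.map_map, ← IsScalarTower.algebraMap_eq, Polynomial.map_zero]
        exact h0
      · rw [Polynomial.aeval_map_algebraMap] at hb
        exact hb

theorem isMat_ofInt {ι : Type} [Fintype ι] {Γ : ∀ (R : Type) [CommRing R], Set (Matrix ι ι R)}
    {G : OC.GSch Λ} (h : OC.IsMat Γ G) : IsMat Γ (ofInt G) := by
  obtain ⟨e, he⟩ := h
  refine ⟨fun A g => e A g, fun A => ⟨(he A).1, ?_, (he A).2.2.1,
    fun B f g => (he A).2.2.2 B f.hom g⟩⟩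
  ext a
  exact ((he A).2.1 a).symm

theorem exists_preSet (s : Prop) {n : ℕ} (r : Pre n) (Λ : Type) [CommRing Λ] :
    ∃ G : GFun Λ, IsMat (preSet s r) G ∧ Flagged Λ G := by
  obtain ⟨G, h1, h2⟩ := OC.exists_preSet s (r := ⟨r.rel, r.refl, r.trans⟩) Λ
  exact ⟨ofInt G, isMat_ofInt h1, flagged_ofInt h2⟩

theorem exists_spSet (m : ℕ) (Λ : Type) [CommRing Λ] :
    ∃ G : GFun Λ, IsMat (spSet m) G ∧ Flagged Λ G := by
  obtain ⟨G, h1, h2⟩ := OC.exists_spSet m Λ
  exact ⟨ofInt G, isMat_ofInt h1, flagged_ofInt h2⟩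

end Pool.Agent.Helper72.OD
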