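import Mathlib

/-!
# Flagged group functors, their actions on affine schemes, classes of arithmetic schemes
-/

set_option autoImplicit false

namespace Pool.Agent.Helper72.OD

open AlgebraicGeometry CategoryTheory TensorProduct

variable {Λ : Type} [CommRing Λ]

/-! ### Group schemes -/

/-- The image of `g ∈ G(A)` in `G(B)` under a homomorphism `f : A → B`. -/
def mp (G : CommAlgCat.{0} Λ ⥤ GrpCat.{0}) {A B : CommAlgCat.{0} Λ} (f : A ⟶ B) (g : G.obj A) :
    G.obj B :=
  (G.map f).hom g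

/-- The group functor `G` is represented by a smooth algebra `O` (with universal element `γ`) such
that for every domain `A` the ring `A ⊗ O` is a domain and every element of `A ⊗ O` has a finitely
generated content ideal compatible with base change. (The last two conditions hold if `O` is
projective over `Λ` with geometrically integral fibres.) -/
def Good (G : CommAlgCat.{0} Λ ⥤ GrpCat.{0}) : Prop :=
  ∃ (O : CommAlgCat.{0} Λ) (γ : G.obj O),
    (∀ (A : CommAlgCat.{0} Λ) (g : G.obj A), ∃! f : O ⟶ A, mp G f γ = g) ∧ Algebra.Smooth Λ O ∧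
    (∀ A : CommAlgCat.{0} Λ, IsDomain A → IsDomain (A ⊗[Λ] O)) ∧
    ∀ (A : CommAlgCat.{0} Λ) (b : A ⊗[Λ] O), ∃ s : Finset A, ∀ (B : CommAlgCat.{0} Λ) (f : A ⟶ B),
      f.hom.toLinearMap.rTensor O b = 0 ↔ ∀ a ∈ s, f.hom a = 0

/-- The subgroup generated by the `x_h(a)`, `h < k`. -/
def U {G : CommAlgCat.{0} Λ ⥤ GrpCat.{0}} {N : ℕ} (x : Fin N → ∀ A : CommAlgCat.{0} Λ, A → G.obj A)
    (k : Fin N) (A : CommAlgCat.{0} Λ) : Subgroup (G.obj A) :=
  Subgroup.closure {g | ∃ h < k, ∃ a, g = x h A a}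

/-- `G` is generated by the natural homomorphism `t` from the split torus of rank `n` and by natural
maps `x_k` (`k < N`) from the additive group; modulo the subgroup `U_k` generated by the `x_h` with
`h < k` the map `x_k` is additive and is normalised by the torus through the character `β_k`, and
the commutators of `x_k` and `x_l` lie in `U_l` if `l ≤ k`. -/
structure Solv {G : CommAlgCat.{0} Λ ⥤ GrpCat.{0}} {N n : ℕ}
    (x : Fin N → ∀ A : CommAlgCat.{0} Λ, A → G.obj A)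
    (t : ∀ A : CommAlgCat.{0} Λ, (Fin n → Aˣ) → G.obj A) (β : Fin N → Fin n → ℤ) : Prop where
  x_nat : ∀ k (A B : CommAlgCat.{0} Λ) (f : A ⟶ B) (a : A), mp G f (x k A a) = x k B (f.hom a)
  t_nat : ∀ (A B : CommAlgCat.{0} Λ) (f : A ⟶ B) (u : Fin n → Aˣ) (v : Fin n → Bˣ),
    (∀ i, f.hom (u i) = v i) → mp G f (t A u) = t B v
  t_mul : ∀ (A : CommAlgCat.{0} Λ) (u v : Fin n → Aˣ), t A (fun i => u i * v i) = t A u * t A v
  x_zero : ∀ k (A : CommAlgCat.{0} Λ), x k A 0 = 1
  x_add : ∀ k (A : CommAlgCat.{0} Λ) (a b : A),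
    x k A (a + b) * (x k A a * x k A b)⁻¹ ∈ U x k A
  conj : ∀ k (A : CommAlgCat.{0} Λ) (u : Fin n → Aˣ) (a : A),
    t A u * x k A a * (x k A (((∏ i, u i ^ β k i : Aˣ) : A) * a) * t A u)⁻¹ ∈ U x k A
  comm : ∀ k l, l ≤ k → ∀ (A : CommAlgCat.{0} Λ) (a b : A),
    x k A a * x l A b * (x l A b * x k A a)⁻¹ ∈ U x l A
  gen : ∀ A : CommAlgCat.{0} Λ,
    Subgroup.closure {g | (∃ k a, g = x k A a) ∨ ∃ u, g = t A u} = ⊤

/-- `G` is split solvable. -/
def IsSolv (G : CommAlgCat.{0} Λ ⥤ GrpCat.{0}) : Prop :=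
  ∃ (N n : ℕ) (x : Fin N → ∀ A : CommAlgCat.{0} Λ, A → G.obj A)
    (t : ∀ A : CommAlgCat.{0} Λ, (Fin n → Aˣ) → G.obj A) (β : Fin N → Fin n → ℤ), Solv x t β

/-- `Q` is a subgroup of `G` such that `G/Q` is a projective scheme with a covering by affine
charts with sections and cells: the functions `w_l` on `G` satisfy `w_l(g q) = w_l(g) χ(q)`; the
chart `j < c` is given by `w_(e j) ≠ 0`, its coordinate ring `Γ_j` is generated by the `w_l(σ_j)`,
where `σ_j` is an element of `G(Γ_j)`, every `g` with `w_(e j)(g)` invertible is uniquely of the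
form `f(σ_j) q`; the charts cover the projective scheme (`cover`), and the complement in the chart
`j` of the charts `h < j` is up to nilpotents an affine space (`cell`). -/
structure Flag {Q G : CommAlgCat.{0} Λ ⥤ GrpCat.{0}} (i : NatTrans Q G) {m c : ℕ}
    (w : Fin m → ∀ A : CommAlgCat.{0} Λ, G.obj A → A) (χ : ∀ A : CommAlgCat.{0} Λ, Q.obj A → A)
    (e : Fin c → Fin m) (Γ : Fin c → CommAlgCat.{0} Λ) (σ : ∀ j, G.obj (Γ j)) : Prop where
  w_nat : ∀ l (A B : CommAlgCat.{0} Λ) (f : A ⟶ B) (g : G.obj A),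
    w l B (mp G f g) = f.hom (w l A g)
  w_mul : ∀ l (A : CommAlgCat.{0} Λ) (g : G.obj A) (q : Q.obj A),
    w l A (g * (i.app A).hom q) = w l A g * χ A q
  pos : 0 < c
  cover : ∀ l, ∃ (k : ℕ) (p : Fin c → MvPolynomial (Fin m) Λ), (∀ j, (p j).IsHomogeneous k) ∧
    ∀ (A : CommAlgCat.{0} Λ) (g : G.obj A),
      w l A g ^ (k + 1) = ∑ j, w (e j) A g * MvPolynomial.aeval (fun l => w l A g) (p j)
  w_σ : ∀ j, w (e j) (Γ j) (σ j) = 1
  gen : ∀ j, Algebra.adjoin Λ (Set.range fun l => w l (Γ j) (σ j)) = ⊤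
  chart : ∀ j (A : CommAlgCat.{0} Λ) (g : G.obj A), IsUnit (w (e j) A g) →
    ∃! p : (Γ j ⟶ A) × Q.obj A, g = mp G p.1 (σ j) * (i.app A).hom p.2
  cell : ∀ j, ∃ (d : ℕ) (f : Γ j →ₐ[Λ] MvPolynomial (Fin d) Λ), Function.Surjective f ∧
    (∀ h < j, f (w (e h) (Γ j) (σ j)) = 0) ∧
    ∀ a, f a = 0 → a ∈ (Ideal.span {a | ∃ h < j, a = w (e h) (Γ j) (σ j)}).radical

/-- `Q` and `G` are as in `Flag`. -/
def IsFlag (Q G : CommAlgCat.{0} Λ ⥤ GrpCat.{0}) : Prop :=
  ∃ (i : NatTrans Q G) (m c : ℕ) (w : Fin m → ∀ A : CommAlgCat.{0} Λ, G.obj A → A)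
    (χ : ∀ A : CommAlgCat.{0} Λ, Q.obj A → A) (e : Fin c → Fin m) (Γ : Fin c → CommAlgCat.{0} Λ)
    (σ : ∀ j, G.obj (Γ j)), Flag i w χ e Γ σ

/-- Restriction of scalars from `Λ'` to `Λ`, for algebras. -/
def resObj (Λ : Type) {Λ' : Type} [CommRing Λ] [CommRing Λ'] [Algebra Λ Λ']
    (A : CommAlgCat.{0} Λ') : CommAlgCat.{0} Λ :=
  @CommAlgCat.of Λ _ A _ (Algebra.compHom A (algebraMap Λ Λ'))

/-- Restriction of scalars from `Λ'` to `Λ`, for homomorphisms. -/
def resMap (Λ : Type) {Λ' : Type} [CommRing Λ] [CommRing Λ'] [Algebra Λ Λ']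
    {A B : CommAlgCat.{0} Λ'} (f : A ⟶ B) : resObj Λ A ⟶ resObj Λ B :=
  let _ := Algebra.compHom A (algebraMap Λ Λ')
  let _ := Algebra.compHom B (algebraMap Λ Λ')
  CommAlgCat.ofHom ⟨f.hom.toRingHom, fun l => f.hom.commutes (algebraMap Λ Λ' l)⟩

/-- The base change of the group functor `G` along `Λ → Λ'`. -/
def bc (Λ' : Type) [CommRing Λ'] [Algebra Λ Λ'] (G : CommAlgCat.{0} Λ ⥤ GrpCat.{0}) :
    CommAlgCat.{0} Λ' ⥤ GrpCat.{0} where
  obj A := G.obj (resObj Λ A)
  map f := G.map (resMap Λ f)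
  map_id A := G.map_id (resObj Λ A)
  map_comp f g := G.map_comp (resMap Λ f) (resMap Λ g)

/-- `L` is a domain, finitely generated over `Λ`, which contains `Λ/p` and is algebraic over
`Λ/p`. -/
structure IsExt (p : PrimeSpectrum Λ) (L : CommAlgCat.{0} Λ) : Prop where
  domain : IsDomain L
  fg : Algebra.FiniteType Λ L
  ker : ∀ a : Λ, algebraMap Λ L a = 0 ↔ a ∈ p.asIdeal
  alg : ∀ b : L, ∃ f : Polynomial Λ, f.map (algebraMap Λ L) ≠ 0 ∧ Polynomial.aeval b f = 0

/-- Group functors on commutative `Λ`-algebras. -/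
abbrev GFun (Λ : Type) [CommRing Λ] : Type 1 := CommAlgCat.{0} Λ ⥤ GrpCat.{0}

/-- Flagged group schemes: split solvable ones, those with a flagged subgroup `Q` as in `Flag`,
and those which become flagged, for every prime ideal `p` of `Λ`, over a domain `L_p` which is a
finitely generated `Λ`-algebra, contains `Λ/p` and is algebraic over `Λ/p`. -/
inductive Flagged : ∀ (Λ : Type) [CommRing Λ], GFun Λ → Prop
  | solv {Λ : Type} [CommRing Λ] (G : GFun Λ) : Good G → IsSolv G → Flagged Λ G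
  | flag {Λ : Type} [CommRing Λ] (Q G : GFun Λ) : Good G → IsFlag Q G → Flagged Λ Q → Flagged Λ G
  | ext {Λ : Type} [CommRing Λ] (G : GFun Λ) (L : PrimeSpectrum Λ → CommAlgCat.{0} Λ) :
      Good G → (∀ p, IsExt p (L p)) → (∀ p, Flagged (L p) (bc (L p) G)) → Flagged Λ G

/-- `G` is the group scheme of the matrices in `Γ(R)`. -/
def IsMat {ι : Type} [Fintype ι] (Γ : ∀ (R : Type) [CommRing R], Set (Matrix ι ι R))
    (G : CommAlgCat.{0} Λ ⥤ GrpCat.{0}) : Prop :=
  ∃ e : ∀ A : CommAlgCat.{0} Λ, G.obj A → Matrix ι ι A, ∀ A : CommAlgCat.{0} Λ,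
    Function.Injective (e A) ∧ Set.range (e A) = Γ A ∧ (∀ g h, e A (g * h) = e A g * e A h) ∧
      ∀ (B : CommAlgCat.{0} Λ) (f : A ⟶ B) (g : G.obj A), e B (mp G f g) = (e A g).map f.hom

/-- A preorder on `Fin n`. -/
structure Pre (n : ℕ) where
  rel : Fin n → Fin n → Prop
  refl : ∀ i, rel i i
  trans : ∀ {i j k}, rel i j → rel j k → rel i k

/-- The invertible matrices `a` such that the `(i, j)`-entries of `a` and `a⁻¹` vanish whenever
`i`, `j` are not related; if `s` holds, those of determinant one. -/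
def preSet (s : Prop) {n : ℕ} (r : Pre n) (R : Type) [CommRing R] :
    Set (Matrix (Fin n) (Fin n) R) :=
  {a | IsUnit a ∧ (∀ i j, ¬ r.rel i j → a i j = 0 ∧ a⁻¹ i j = 0) ∧ (s → a.det = 1)}

/-- The symplectic matrices of size `2m`. -/
def spSet (m : ℕ) (R : Type) [CommRing R] : Set (Matrix (Fin m ⊕ Fin m) (Fin m ⊕ Fin m) R) :=
  {a | a * Matrix.J (Fin m) R * a.transpose = Matrix.J (Fin m) R}

/-! ### Actions -/

/-- An action of `G` on `Spec S`, that is on the functor `Hom(S, -)`. -/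
structure Act (G : CommAlgCat.{0} Λ ⥤ GrpCat.{0}) (S : CommAlgCat.{0} Λ) where
  act : ∀ {A : CommAlgCat.{0} Λ}, G.obj A → (S ⟶ A) → (S ⟶ A)
  one : ∀ (A : CommAlgCat.{0} Λ) (x : S ⟶ A), act 1 x = x
  mul : ∀ (A : CommAlgCat.{0} Λ) (g h : G.obj A) (x : S ⟶ A), act (g * h) x = act g (act h x)
  nat : ∀ (A B : CommAlgCat.{0} Λ) (f : A ⟶ B) (g : G.obj A) (x : S ⟶ A),
    act (mp G f g) (x ≫ f) = act g x ≫ f

/-- The point `x'` of the cone `Spec S` is the point `x` scaled by `u`. -/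
def Scaled {S A : CommAlgCat.{0} Λ} (𝒮 : ℕ → AddSubgroup S) (u : Aˣ) (x x' : S ⟶ A) : Prop :=
  ∀ d, ∀ s ∈ 𝒮 d, x'.hom s = u ^ d * x.hom s

/-! ### Schemes -/

/-- *Arithmetic schemes*: separated and of finite type over `Spec ℤ`. -/
def Arithmetic (X : Scheme.{0}) : Prop :=
  ∃ f : X ⟶ Spec (CommRingCat.of ℤ), LocallyOfFiniteType f ∧ QuasiCompact f ∧ IsSeparated f

/-- The image of a morphism. -/
def im {Y X : Scheme.{0}} (f : Y ⟶ X) : Set X := Set.range (TopCat.Hom.hom f.base)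

/-- `Z` is a closed subscheme of `X` (via `i`) and `U` (via `j`) is its open complement. -/
def ClosedOpen {Z X U : Scheme.{0}} (i : Z ⟶ X) (j : U ⟶ X) : Prop :=
  IsClosedImmersion i ∧ LocallyRingedSpace.IsOpenImmersion j.toLRSHom ∧ im j = (im i)ᶜ

/-- The open subscheme of `Spec A` given by the complement of the zero locus of `e`. -/
def specOpen {A : Type} [CommRing A] (e : Ideal A) : (Spec (CommRingCat.of A)).Opens :=
  ⟨(PrimeSpectrum.zeroLocus (e : Set A))ᶜ, (PrimeSpectrum.isClosed_zeroLocus _).isOpen_compl⟩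

/-- The open subscheme of `Proj 𝒮` given by the complement of the zero locus of `c`. -/
def projOpen {S : Type} [CommRing S] (𝒮 : ℕ → AddSubgroup S) [GradedRing 𝒮] (c : Ideal S) :
    (Proj 𝒮).Opens :=
  ⟨(ProjectiveSpectrum.zeroLocus 𝒮 (c : Set S))ᶜ,
    (ProjectiveSpectrum.isClosed_zeroLocus 𝒮 _).isOpen_compl⟩

/-- The graded ring `𝒮` is finitely generated, and is generated by its elements of degree `0`
and `1`. -/
structure Std {S : Type} [CommRing S] (𝒮 : ℕ → AddSubgroup S) : Prop where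
  fg : (Int.castRingHom S).FiniteType
  gens : Subring.closure ((𝒮 0 : Set S) ∪ 𝒮 1) = ⊤

/-- Classes of arithmetic schemes with the formal properties of the class of those `X` for which
all groups `H^i(X_et, ℤ^c(n))` with `n < 0` are finitely generated. -/
structure Rules (P : Scheme.{0} → Prop) : Prop where
  /-- invariance under isomorphism -/
  iso : ∀ X Y : Scheme.{0}, Arithmetic X → Nonempty (X ≅ Y) → P X → P Y
  /-- the empty scheme -/
  empty : ∀ X : Scheme.{0}, IsEmpty X → P X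
  /-- two-out-of-three for a closed subscheme `Z` of `X` and its open complement `U` -/
  two : ∀ (Z X U : Scheme.{0}) (i : Z ⟶ X) (j : U ⟶ X), Arithmetic X → ClosedOpen i j →
    (P X → P U → P Z) ∧ (P X → P Z → P U) ∧ (P Z → P U → P X)
  /-- homotopy invariance: the affine line over a member -/
  line : ∀ X : Scheme.{0}, Arithmetic X → P X → P (AffineSpace (Fin 1) X)
  /-- spectra of finitely generated rings of dimension at most one -/
  dimOne : ∀ (A : Type) [CommRing A], (Int.castRingHom A).FiniteType → ringKrullDim A ≤ 1 →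
    P (Spec (CommRingCat.of A))
  /-- transfer: proper surjective maps to schemes which are smooth over `ℤ` or over a prime
  field -/
  proper : ∀ (E X : Scheme.{0}) (f : E ⟶ X) (p : ℕ) (s : X ⟶ Spec (CommRingCat.of (ZMod p))),
    (p = 0 ∨ p.Prime) → Arithmetic X → IsProper f → Surjective f → Smooth s → P E → P X
  /-- the projection of a punctured affine cone to its base -/
  cone : ∀ (S : Type) [CommRing S] (𝒮 : ℕ → AddSubgroup S) [GradedRing 𝒮] (c : Ideal S),
    Std 𝒮 → c.IsHomogeneous 𝒮 → P (specOpen (c * Ideal.span (𝒮 1 : Set S))).toScheme →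
    P (projOpen 𝒮 c).toScheme

/-- `F` is an algebraic closure of a prime field of positive characteristic. -/
def IsFpBar (F : Type) [CommRing F] : Prop :=
  ∃ (p : ℕ) (_ : Fact p.Prime), Nonempty (F ≃+* AlgebraicClosure (ZMod p))



/-! ### Families of orbits -/

/-- The graded `Λ`-algebra `S` is standard, the action `α` on the cone `Spec S` commutes with
scaling, and `c` is a homogeneous ideal such that the closed subscheme of `Spec S` given by `c` is
stable under the action. -/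
structure Linearised {G : CommAlgCat.{0} Λ ⥤ GrpCat.{0}} {S : CommAlgCat.{0} Λ}
    (𝒮 : ℕ → AddSubgroup S) [GradedRing 𝒮] (α : Act G S) (c : Ideal S) : Prop where
  std : Std 𝒮
  zero : ∀ l : Λ, algebraMap Λ S l ∈ 𝒮 0
  graded : ∀ (A : CommAlgCat.{0} Λ) (g : G.obj A) (u : Aˣ) (x x' : S ⟶ A), Scaled 𝒮 u x x' →
    Scaled 𝒮 u (α.act g x) (α.act g x')
  homogeneous : c.IsHomogeneous 𝒮
  stable : ∀ (A : CommAlgCat.{0} Λ) (g : G.obj A) (x : S ⟶ A), (∀ a ∈ c, x.hom a = 0) →
    ∀ a ∈ c, (α.act g x).hom a = 0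

/-- For all prime numbers `p` and all `Λ`-algebras `F` which are algebraic closures of the field
with `p` elements, all `F`-valued points `x` of the punctured cone over the complement of `V(c)` are
of the form `u · g · (z ∘ y)`, where `z : R → F` is a homomorphism, `g ∈ G(F)` and `u ∈ Fˣ`. -/
def Orbits {G : CommAlgCat.{0} Λ ⥤ GrpCat.{0}} {S R : CommAlgCat.{0} Λ} (𝒮 : ℕ → AddSubgroup S)
    (α : Act G S) (c : Ideal S) (y : S ⟶ R) : Prop :=
  ∀ F : CommAlgCat.{0} Λ, IsFpBar F → ∀ x : S ⟶ F, (∃ a ∈ c, x.hom a ≠ 0) →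
    (∃ a ∈ 𝒮 1, x.hom a ≠ 0) → ∃ (z : R ⟶ F) (g : G.obj F) (u : Fˣ),
      Scaled 𝒮 u (α.act g (y ≫ z)) x

end Pool.Agent.Helper72.OD
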