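import Pool.Agent.Helper72.OD.Defs
import Pool.Agent.Helper72.OC.Final

/-!
# Orbit theorem: from the statement to the internal definitions
-/

set_option autoImplicit false

namespace Pool.Agent.Helper72.OD

open AlgebraicGeometry CategoryTheory TensorProduct

variable {Λ : Type} [CommRing Λ]

/-- the universal element `γ ∈ G(O)` represents `G` -/
def Rep (G : CommAlgCat.{0} Λ ⥤ GrpCat.{0}) (O : CommAlgCat.{0} Λ) (γ : G.obj O) : Prop :=
  ∀ (A : CommAlgCat.{0} Λ) (g : G.obj A), ∃! f : O ⟶ A, mp G f γ = g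

/-- the internal group scheme -/
noncomputable def toInt (G : CommAlgCat.{0} Λ ⥤ GrpCat.{0}) {O : CommAlgCat.{0} Λ} {γ : G.obj O}
    (h : Rep G O γ) : OC.GSch Λ where
  Pt R _ _ := G.obj (.of Λ R)
  grp R _ _ := inferInstance
  map f := (G.map (CommAlgCat.ofHom f)).hom
  O := O
  ring := inferInstance
  alg := inferInstance
  gen := γ
  ev {R} _ _ g := (h (.of Λ R) g).choose.hom
  map_ev {R} _ _ g := (h (.of Λ R) g).choose_spec.1
  ev_map {R} _ _ f := congrArg CommAlgCat.Hom.hom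
    ((h (.of Λ R) (mp G (CommAlgCat.ofHom f) γ)).unique
      (h (.of Λ R) (mp G (CommAlgCat.ofHom f) γ)).choose_spec.1 rfl)
  map_comp f f' g := by
    rw [CommAlgCat.ofHom_comp, G.map_comp]
    rfl

theorem good_toInt {G : CommAlgCat.{0} Λ ⥤ GrpCat.{0}} (h : Good G) :
    ∃ (O : CommAlgCat.{0} Λ) (γ : G.obj O) (h : Rep G O γ), (toInt G h).Good := by
  obtain ⟨O, γ, h, h1, h2, h3⟩ := h
  refine ⟨O, γ, h, h1, fun A _ _ hA => h2 (.of Λ A) hA, fun A _ _ b => ?_⟩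
  obtain ⟨s, hs⟩ := h3 (.of Λ A) b
  exact ⟨s, fun R _ _ f => hs (.of Λ R) (CommAlgCat.ofHom f)⟩

theorem solv_toInt {G : CommAlgCat.{0} Λ ⥤ GrpCat.{0}} {O : CommAlgCat.{0} Λ} {γ : G.obj O}
    (h : Rep G O γ) (hs : IsSolv G) : Nonempty (OC.Solv (toInt G h)) := by
  obtain ⟨N, n, x, t, β, hs⟩ := hs
  exact ⟨{
    N := N
    n := n
    x := fun k {R} _ _ c => x k (.of Λ R) c
    t := fun {R} _ _ => MonoidHom.mk' (t (.of Λ R)) (hs.t_mul (.of Λ R))
    β := β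
    x_nat := fun k {R R'} _ _ _ _ f c => hs.x_nat k (.of Λ R) (.of Λ R') (CommAlgCat.ofHom f) c
    t_nat := fun {R R'} _ _ _ _ f u =>
      hs.t_nat (.of Λ R) (.of Λ R') (CommAlgCat.ofHom f) u _ fun _ => rfl
    x_zero := fun k R _ _ => hs.x_zero k (.of Λ R)
    x_add := fun k {R} _ _ a b => hs.x_add k (.of Λ R) a b
    conj := fun k {R} _ _ u a => hs.conj k (.of Λ R) u a
    comm := fun k l hl {R} _ _ a b => hs.comm k l hl (.of Λ R) a b
    gen := fun R _ _ => hs.gen (.of Λ R) }⟩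

theorem flag_toInt {Q G : CommAlgCat.{0} Λ ⥤ GrpCat.{0}} {OQ : CommAlgCat.{0} Λ} {γQ : Q.obj OQ}
    (hQ : Rep Q OQ γQ) {O : CommAlgCat.{0} Λ} {γ : G.obj O}
    (h : Rep G O γ) (hf : IsFlag Q G) : Nonempty (OC.Flag (toInt Q hQ) (toInt G h)) := by
  obtain ⟨i, m, c, w, χ, e, Γ, σ, hf⟩ := hf
  exact ⟨{
    inc := fun {R} _ _ => (i.app (.of Λ R)).hom
    inc_nat := fun {R R'} _ _ _ _ f q => by
      have h1 := i.naturality (X := .of Λ R) (Y := .of Λ R') (CommAlgCat.ofHom f)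
      exact (congrArg (fun F => (GrpCat.Hom.hom F) q) h1).symm
    m := m
    w := fun l {R} _ _ g => w l (.of Λ R) g
    w_nat := fun l {R R'} _ _ _ _ f g => hf.w_nat l (.of Λ R) (.of Λ R') (CommAlgCat.ofHom f) g
    χ := fun {R} _ _ q => χ (.of Λ R) q
    w_mul := fun l {R} _ _ g q => hf.w_mul l (.of Λ R) g q
    c := c
    pos := hf.pos
    e := e
    cover := fun l => by
      obtain ⟨k, p, hp, h⟩ := hf.cover l
      exact ⟨k, p, hp, fun {R} _ _ g => h (.of Λ R) g⟩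
    Γ := fun j => Γ j
    ringΓ := fun j => inferInstance
    algΓ := fun j => inferInstance
    σ := σ
    w_σ := hf.w_σ
    gen := hf.gen
    chart := fun j {R} _ _ g hg => by
      obtain ⟨⟨f, q⟩, h1, h2⟩ := hf.chart j (.of Λ R) g hg
      refine ⟨(f.hom, q), h1, fun p hp => ?_⟩
      have h3 := h2 (CommAlgCat.ofHom p.1, p.2) hp
      exact Prod.ext (congrArg (fun a => CommAlgCat.Hom.hom a.1) h3)
        (congrArg (fun a : (Γ j ⟶ CommAlgCat.of Λ R) × Q.obj (.of Λ R) => a.2) h3)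
    dim := fun j => (hf.cell j).choose
    cell := fun j => (hf.cell j).choose_spec.choose
    cell_surj := fun j => (hf.cell j).choose_spec.choose_spec.1
    cell_zero := fun j => (hf.cell j).choose_spec.choose_spec.2.1
    cell_ker := fun j => (hf.cell j).choose_spec.choose_spec.2.2 }⟩

section

variable (Λ : Type) {Λ' : Type} [CommRing Λ] [CommRing Λ'] [Algebra Λ Λ'] (R : Type) [CommRing R]
    [i : Algebra Λ R] [Algebra Λ' R] [IsScalarTower Λ Λ' R]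

/-- the identity map -/
def toRes : CommAlgCat.of Λ R ⟶ resObj Λ (.of Λ' R) :=
  @CommAlgCat.ofHom Λ _ R R _ i _ (Algebra.compHom R (algebraMap Λ Λ'))
    (@AlgHom.mk Λ R R _ _ _ i (Algebra.compHom R (algebraMap Λ Λ')) (RingHom.id R)
      fun l => IsScalarTower.algebraMap_apply Λ Λ' R l)

/-- the identity map -/
def ofRes : resObj Λ (.of Λ' R) ⟶ CommAlgCat.of Λ R :=
  @CommAlgCat.ofHom Λ _ R R _ (Algebra.compHom R (algebraMap Λ Λ')) _ i
    (@AlgHom.mk Λ R R _ _ _ (Algebra.compHom R (algebraMap Λ Λ')) i (RingHom.id R)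
      fun l => (IsScalarTower.algebraMap_apply Λ Λ' R l).symm)

theorem toRes_ofRes : toRes Λ (Λ' := Λ') R ≫ ofRes Λ (Λ' := Λ') R = 𝟙 _ := rfl

theorem ofRes_toRes : ofRes Λ (Λ' := Λ') R ≫ toRes Λ (Λ' := Λ') R = 𝟙 _ := rfl

theorem ofRes_nat {R R' : Type} [CommRing R] [Algebra Λ R] [Algebra Λ' R] [IsScalarTower Λ Λ' R]
    [CommRing R'] [Algebra Λ R'] [Algebra Λ' R'] [IsScalarTower Λ Λ' R'] (f : R →ₐ[Λ'] R') :
    resMap Λ (CommAlgCat.ofHom f) ≫ ofRes Λ (Λ' := Λ') R' =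
      ofRes Λ (Λ' := Λ') R ≫ CommAlgCat.ofHom (f.restrictScalars Λ) := rfl

end

theorem isBC_toInt {G : CommAlgCat.{0} Λ ⥤ GrpCat.{0}} {O : CommAlgCat.{0} Λ} {γ : G.obj O}
    (h : Rep G O γ) {Λ' : Type} [CommRing Λ'] [Algebra Λ Λ'] {O' : CommAlgCat.{0} Λ'}
    {γ' : (bc Λ' G).obj O'} (h' : Rep (bc Λ' G) O' γ') : OC.IsBC (toInt G h) (toInt (bc Λ' G) h') := by
  have hb : ∀ (R : Type) [CommRing R] [Algebra Λ R] [Algebra Λ' R] [IsScalarTower Λ Λ' R],
      Function.Bijective (G.map (ofRes Λ (Λ' := Λ') R)).hom := by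
    intro R _ _ _ _
    refine Function.bijective_iff_has_inverse.2 ⟨(G.map (toRes Λ (Λ' := Λ') R)).hom, ?_, ?_⟩
    · intro g
      have h1 := G.map_comp (ofRes Λ (Λ' := Λ') R) (toRes Λ (Λ' := Λ') R)
      rw [ofRes_toRes, G.map_id] at h1
      exact (congrArg (fun F => (GrpCat.Hom.hom F) g) h1).symm
    · intro g
      have h1 := G.map_comp (toRes Λ (Λ' := Λ') R) (ofRes Λ (Λ' := Λ') R)
      rw [toRes_ofRes, G.map_id] at h1
      exact (congrArg (fun F => (GrpCat.Hom.hom F) g) h1).symm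
  refine ⟨fun R _ _ _ _ => MulEquiv.ofBijective (G.map (ofRes Λ (Λ' := Λ') R)).hom (hb R), ?_⟩
  intro R R' _ _ _ _ _ _ _ _ f g
  have h1 := congrArg G.map (ofRes_nat Λ (Λ' := Λ') f)
  rw [G.map_comp, G.map_comp] at h1
  exact congrArg (fun F => (GrpCat.Hom.hom F) g) h1

theorem flagged_toInt {Λ : Type} [CommRing Λ] {G : GFun Λ} (h : Flagged Λ G) :
    ∃ (O : CommAlgCat.{0} Λ) (γ : G.obj O) (h : Rep G O γ), OC.Flagged (toInt G h) := by
  induction h with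
  | solv G hG hs =>
    obtain ⟨O, γ, h, hg⟩ := good_toInt hG
    exact ⟨O, γ, h, .solv _ hg (solv_toInt h hs)⟩
  | flag Q G hG hf _ ih =>
    obtain ⟨O, γ, h, hg⟩ := good_toInt hG
    obtain ⟨OQ, γQ, hQ, hfQ⟩ := ih
    exact ⟨O, γ, h, .flag _ _ hg (flag_toInt hQ h hf) hfQ⟩
  | @ext Λ _ G L hG hL _ ih =>
    obtain ⟨O, γ, h, hg⟩ := good_toInt hG
    choose O' γ' h' hfl using ih
    have := fun p => (hL p).domain
    let _ (p : PrimeSpectrum Λ) : Algebra (Λ ⧸ p.asIdeal) (L p) :=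
      (Ideal.Quotient.lift p.asIdeal (algebraMap Λ (L p)) fun a ha => ((hL p).ker a).2 ha).toAlgebra
    have (p : PrimeSpectrum Λ) : IsScalarTower Λ (Λ ⧸ p.asIdeal) (L p) :=
      IsScalarTower.of_algebraMap_eq fun _ => rfl
    refine ⟨O, γ, h, .ext _ (fun p => L p) (fun p => toInt (bc (L p) G) (h' p)) hg
      (fun p => (hL p).fg) (fun p => ?_) (fun p => ⟨fun b => ?_⟩) (fun p => isBC_toInt h (h' p))
      hfl⟩
    · refine (injective_iff_map_eq_zero _).2 fun a ha => ?_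
      obtain ⟨a, rfl⟩ := Ideal.Quotient.mk_surjective a
      exact Ideal.Quotient.eq_zero_iff_mem.2 (((hL p).ker a).1 ha)
    · obtain ⟨f, hf, hb⟩ := (hL p).alg b
      refine ⟨f.map (algebraMap Λ (Λ ⧸ p.asIdeal)), fun h0 => hf ?_, ?_⟩
      · rw [IsScalarTower.algebraMap_eq Λ (Λ ⧸ p.asIdeal) (L p), ← Polynomial.map_map, h0,
          Polynomial.map_zero]
      · rw [Polynomial.aeval_map_algebraMap]
        exact hb

/-- the internal action -/
noncomputable def Act.toInt {G : CommAlgCat.{0} Λ ⥤ GrpCat.{0}} {S : CommAlgCat.{0} Λ}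
    (α : Act G S) {O : CommAlgCat.{0} Λ} {γ : G.obj O} (h : Rep G O γ) :
    OC.Act (toInt G h) S where
  act {R} _ _ g x := (α.act (A := .of Λ R) g (CommAlgCat.ofHom x)).hom
  one {R} _ _ x := congrArg CommAlgCat.Hom.hom (α.one (.of Λ R) (CommAlgCat.ofHom x))
  mul {R} _ _ g h x := congrArg CommAlgCat.Hom.hom (α.mul (.of Λ R) g h (CommAlgCat.ofHom x))
  nat {R R'} _ _ _ _ f g x := congrArg CommAlgCat.Hom.hom
    (α.nat (.of Λ R) (.of Λ R') (CommAlgCat.ofHom f) g (CommAlgCat.ofHom x))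

theorem Rules.toInt {P : Scheme.{0} → Prop} (h : Rules P) : OB.Rules P where
  iso := h.iso
  empty := h.empty
  closed Z X U i j hX hij := (h.two Z X U i j hX ⟨hij.1, hij.2, hij.3⟩).1
  opn Z X U i j hX hij := (h.two Z X U i j hX ⟨hij.1, hij.2, hij.3⟩).2.1
  glue Z X U i j hX hij := (h.two Z X U i j hX ⟨hij.1, hij.2, hij.3⟩).2.2
  line := h.line
  dimOne := h.dimOne
  proper := h.proper
  cone S _ 𝒮 _ c hS hc := h.cone S 𝒮 c ⟨hS.fg, hS.gen⟩ hc

theorem final {P : Scheme.{0} → Prop} (hP : Rules P) {G : GFun Λ} (hG : Flagged Λ G)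
    {S : CommAlgCat.{0} Λ} (𝒮 : ℕ → AddSubgroup S) [GradedRing 𝒮] (α : Act G S) (c : Ideal S)
    (hα : Linearised 𝒮 α c) {R : CommAlgCat.{0} Λ} (y : S ⟶ R)
    (hR : (Int.castRingHom R).FiniteType) (hdim : ringKrullDim R ≤ 1) (h : Orbits 𝒮 α c y) :
    P (projOpen 𝒮 c).toScheme := by
  obtain ⟨O, γ, hr, hfl⟩ := flagged_toInt hG
  refine OC.final hP.toInt hfl 𝒮 ⟨hα.std.fg, hα.std.gens⟩ hα.zero (α.toInt hr) ?_ c hα.homogeneous
    ?_ hR hdim y.hom ?_
  · intro R _ _ g u x x' hx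
    exact hα.graded (.of Λ R) g u (CommAlgCat.ofHom x) (CommAlgCat.ofHom x') hx
  · intro R _ _ g x hx
    exact hα.stable (.of Λ R) g (CommAlgCat.ofHom x) hx
  · intro p _ _ x hx hx'
    obtain ⟨z, g, u, hz⟩ := h (.of Λ (AlgebraicClosure (ZMod p)))
      ⟨p, inferInstance, ⟨RingEquiv.refl _⟩⟩ (CommAlgCat.ofHom x) hx hx'
    exact ⟨z.hom, g, u, hz⟩

end Pool.Agent.Helper72.OD
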