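import Pool.Agent.Helper72.OD.Defs

/-!
# Orbit theorem: flagged group functors are invariant under isomorphism
-/

set_option autoImplicit false

namespace Pool.Agent.Helper72.OD

open AlgebraicGeometry CategoryTheory TensorProduct

variable {Λ : Type} [CommRing Λ] {F F' : CommAlgCat.{0} Λ ⥤ GrpCat.{0}}

theorem mp_hom (e : F ≅ F') {A B : CommAlgCat.{0} Λ} (f : A ⟶ B) (g : F.obj A) :
    mp F' f ((e.hom.app A).hom g) = (e.hom.app B).hom (mp F f g) :=
  (congrArg (fun φ => (GrpCat.Hom.hom φ) g) (e.hom.naturality f)).symm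

theorem hom_inv (e : F ≅ F') {A : CommAlgCat.{0} Λ} (g : F'.obj A) :
    (e.hom.app A).hom ((e.inv.app A).hom g) = g :=
  congrArg (fun φ => (GrpCat.Hom.hom φ) g) (e.inv_hom_id_app A)

theorem inv_hom (e : F ≅ F') {A : CommAlgCat.{0} Λ} (g : F.obj A) :
    (e.inv.app A).hom ((e.hom.app A).hom g) = g :=
  congrArg (fun φ => (GrpCat.Hom.hom φ) g) (e.hom_inv_id_app A)

theorem mp_inv (e : F ≅ F') {A B : CommAlgCat.{0} Λ} (f : A ⟶ B) (g : F'.obj A) :
    mp F f ((e.inv.app A).hom g) = (e.inv.app B).hom (mp F' f g) :=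
  (congrArg (fun φ => (GrpCat.Hom.hom φ) g) (e.inv.naturality f)).symm

theorem hom_inj (e : F ≅ F') {A : CommAlgCat.{0} Λ} {g h : F.obj A}
    (hgh : (e.hom.app A).hom g = (e.hom.app A).hom h) : g = h := by
  rw [← inv_hom e g, hgh, inv_hom e h]

theorem good_iso (e : F ≅ F') (h : Good F) : Good F' := by
  obtain ⟨O, γ, h, h1⟩ := h
  refine ⟨O, (e.hom.app O).hom γ, fun A g => ?_, h1⟩
  obtain ⟨f, hf, hf'⟩ := h A ((e.inv.app A).hom g)
  refine ⟨f, ?_, fun f' hf1 => hf' f' ?_⟩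
  · show mp F' f _ = g
    rw [mp_hom, hf, hom_inv]
  · show mp F f' γ = _
    rw [← hf1, mp_hom, inv_hom]

theorem mem_U (e : F ≅ F') {N : ℕ} {x : Fin N → ∀ A : CommAlgCat.{0} Λ, A → F.obj A} {k : Fin N}
    {A : CommAlgCat.{0} Λ} {g : F.obj A} (hg : g ∈ U x k A) :
    (e.hom.app A).hom g ∈ U (fun k A a => (e.hom.app A).hom (x k A a)) k A := by
  have h : U x k A ≤ (U (fun k A a => (e.hom.app A).hom (x k A a)) k A).comap
      (e.hom.app A).hom := by
    refine (Subgroup.closure_le _).2 ?_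
    rintro g ⟨h, hk, a, rfl⟩
    exact Subgroup.subset_closure ⟨h, hk, a, rfl⟩
  exact h hg

theorem isSolv_iso (e : F ≅ F') (h : IsSolv F) : IsSolv F' := by
  obtain ⟨N, n, x, t, β, h⟩ := h
  refine ⟨N, n, fun k A a => (e.hom.app A).hom (x k A a), fun A u => (e.hom.app A).hom (t A u), β,
    fun k A B f a => ?_, fun A B f u v huv => ?_, fun A u v => ?_, fun k A => ?_,
    fun k A a b => ?_, fun k A u a => ?_, fun k l hl A a b => ?_, fun A => ?_⟩
  · rw [mp_hom, h.x_nat]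
  · rw [mp_hom, h.t_nat A B f u v huv]
  · rw [h.t_mul, map_mul]
  · rw [h.x_zero, map_one]
  · have h1 := mem_U e (h.x_add k A a b)
    simpa only [map_mul, map_inv] using h1
  · have h1 := mem_U e (h.conj k A u a)
    simpa only [map_mul, map_inv] using h1
  · have h1 := mem_U e (h.comm k l hl A a b)
    simpa only [map_mul, map_inv] using h1
  · rw [eq_top_iff]
    intro g _
    have h1 : (⊤ : Subgroup (F.obj A)) ≤ (Subgroup.closure {g : F'.obj A |
        (∃ k a, g = (e.hom.app A).hom (x k A a)) ∨ ∃ u, g = (e.hom.app A).hom (t A u)}).comap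
        (e.hom.app A).hom := by
      rw [← h.gen A]
      refine (Subgroup.closure_le _).2 ?_
      rintro g (⟨k, a, rfl⟩ | ⟨u, rfl⟩)
      · exact Subgroup.subset_closure (.inl ⟨k, a, rfl⟩)
      · exact Subgroup.subset_closure (.inr ⟨u, rfl⟩)
    have h2 := h1 (Subgroup.mem_top ((e.inv.app A).hom g))
    rw [Subgroup.mem_comap, hom_inv] at h2
    exact h2

theorem isFlag_iso {Q : CommAlgCat.{0} Λ ⥤ GrpCat.{0}} (e : F ≅ F') (h : IsFlag Q F) :
    IsFlag Q F' := by
  obtain ⟨i, m, c, w, χ, k, Γ, σ, h⟩ := h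
  refine ⟨NatTrans.vcomp i e.hom, m, c, fun l A g => w l A ((e.inv.app A).hom g), χ, k, Γ,
    fun j => (e.hom.app (Γ j)).hom (σ j), fun l A B f g => ?_, fun l A g q => ?_, h.pos,
    fun l => ?_, fun j => ?_, fun j => ?_, fun j A g hg => ?_, fun j => ?_⟩
  · rw [← mp_inv, h.w_nat]
  · show w l A ((e.inv.app A).hom (g * (e.hom.app A).hom ((i.app A).hom q))) = _
    rw [map_mul, inv_hom, h.w_mul]
  · obtain ⟨k, p, hp, h1⟩ := h.cover l
    exact ⟨k, p, hp, fun A g => h1 A _⟩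
  · show w _ _ ((e.inv.app _).hom ((e.hom.app _).hom (σ j))) = 1
    rw [inv_hom, h.w_σ]
  · show Algebra.adjoin Λ (Set.range fun l =>
      w l (Γ j) ((e.inv.app _).hom ((e.hom.app _).hom (σ j)))) = ⊤
    simp only [inv_hom]
    exact h.gen j
  · obtain ⟨p, hp, hp'⟩ := h.chart j A _ hg
    refine ⟨p, ?_, fun p' h1 => hp' p' ?_⟩
    · show g = mp F' p.1 ((e.hom.app _).hom (σ j)) * (e.hom.app A).hom ((i.app A).hom p.2)
      rw [mp_hom, ← map_mul, ← hp, hom_inv]
    · show (e.inv.app A).hom g = mp F p'.1 (σ j) * (i.app A).hom p'.2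
      apply hom_inj e
      rw [hom_inv, map_mul, ← mp_hom]
      exact h1
  · obtain ⟨d, f, hf, h1, h2⟩ := h.cell j
    refine ⟨d, f, hf, ?_, ?_⟩
    · intro h hj
      show f (w _ _ ((e.inv.app _).hom ((e.hom.app _).hom (σ j)))) = 0
      rw [inv_hom]
      exact h1 h hj
    · show ∀ a, f a = 0 → a ∈ (Ideal.span {a | ∃ h < j,
        a = w (k h) (Γ j) ((e.inv.app _).hom ((e.hom.app _).hom (σ j)))}).radical
      simp only [inv_hom]
      exact h2

/-- base change of an isomorphism -/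
def bcIso (Λ' : Type) [CommRing Λ'] [Algebra Λ Λ'] (e : F ≅ F') : bc Λ' F ≅ bc Λ' F' :=
  NatIso.ofComponents (fun A => e.app (resObj Λ A)) fun f => e.hom.naturality (resMap Λ f)

theorem flagged_iso {Λ : Type} [CommRing Λ] {F : GFun Λ} (h : Flagged Λ F) :
    ∀ {F' : GFun Λ}, (F ≅ F') → Flagged Λ F' := by
  induction h with
  | solv G hG hs => exact fun e => .solv _ (good_iso e hG) (isSolv_iso e hs)
  | flag Q G hG hf hQ _ => exact fun e => .flag Q _ (good_iso e hG) (isFlag_iso e hf) hQ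
  | ext G L hG hL _ ih => exact fun e => .ext _ L (good_iso e hG) hL fun p => ih p (bcIso (L p) e)

end Pool.Agent.Helper72.OD
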